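import Pool.Agent.N102.CP.Stm

/-!
Project CP (helper102), leaf FIX: points over a complete field near a formal arc.
-/

set_option autoImplicit false

universe u

open IsLocalRing MvPolynomial Filter

namespace Pool.Agent.N286.CP

section cong

variable {R S σ : Type*} [CommRing R] [CommRing S] [Algebra R S]

theorem aevalHom {B : Type*} [CommRing B] [Algebra R B] (φ : S →ₐ[R] B) (f : σ → S)
    (p : MvPolynomial σ R) : aeval (fun i => φ (f i)) p = φ (aeval f p) := by
  rw [← MvPolynomial.comp_aeval]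
  rfl

theorem cong (I : Ideal S) (x y : σ → S) (h : ∀ i, x i - y i ∈ I) (F : MvPolynomial σ R) :
    aeval x F - aeval y F ∈ I := by
  rw [← Ideal.Quotient.mk_eq_mk_iff_sub_mem]
  have h1 : (fun i => Ideal.Quotient.mkₐ R I (x i)) = fun i => Ideal.Quotient.mkₐ R I (y i) := by
    funext i
    exact (Ideal.Quotient.mk_eq_mk_iff_sub_mem _ _).2 (h i)
  have h2 := aevalHom (Ideal.Quotient.mkₐ R I) x F
  have h3 := aevalHom (Ideal.Quotient.mkₐ R I) y F
  rw [h1] at h2
  exact h2.symm.trans h3

end cong

section fix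

variable {O : Type*} [CommRing O] [IsLocalRing O] {m : ℕ}

theorem smod {π : O} (hI : maximalIdeal O = Ideal.span {π}) (n : ℕ) (x y : O) :
    x ≡ y [SMOD ((maximalIdeal O) ^ n • ⊤ : Submodule O O)] ↔ π ^ n ∣ x - y := by
  rw [SModEq.sub_mem, smul_eq_mul, Ideal.mul_top, hI, Ideal.span_singleton_pow,
    Ideal.mem_span_singleton]

theorem haus [IsAdicComplete (maximalIdeal O) O] {π : O} (hI : maximalIdeal O = Ideal.span {π})
    (x : O) (h : ∀ n, π ^ n ∣ x) : x = 0 := by
  refine IsHausdorff.haus (I := maximalIdeal O) inferInstance x fun n => ?_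
  rw [smod hI, sub_zero]
  exact h n

theorem fixpt [IsAdicComplete (maximalIdeal O) O] {π : O}
    (hI : maximalIdeal O = Ideal.span {π}) (G : (Fin m → O) → (Fin m → O)) (J : Finset (Fin m))
    (z0 : Fin m → O) (hGJ : ∀ z, ∀ i ∈ J, G z i = z0 i)
    (hG : ∀ (s : ℕ) (z z' : Fin m → O), (∀ i ∈ J, z i = z' i) → (∀ i, π ^ s ∣ z i - z' i) →
      ∀ i, π ^ (s + 1) ∣ G z i - G z' i) (q : ℕ) (h0 : ∀ i, π ^ q ∣ G z0 i - z0 i) :
    ∃ z, G z = z ∧ ∀ i, π ^ q ∣ z i - z0 i := by
  set zz : ℕ → Fin m → O := fun l => G^[l] z0 with hzz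
  have hz0 : zz 0 = z0 := rfl
  have hzs : ∀ l, zz (l + 1) = G (zz l) := fun l => Function.iterate_succ_apply' G l z0
  have hzJ : ∀ l, ∀ i ∈ J, zz l i = z0 i := by
    intro l i hi
    cases l with
    | zero => rfl
    | succ l => rw [hzs]; exact hGJ _ i hi
  have hstep : ∀ l i, π ^ (q + l) ∣ zz (l + 1) i - zz l i := by
    intro l
    induction l with
    | zero => intro i; rw [hzs, hz0]; exact h0 i
    | succ l ih =>
      intro i
      rw [hzs (l + 1), hzs l]
      have h1 := hG (q + l) (zz (l + 1)) (zz l) (fun i hi => by rw [hzJ _ i hi, hzJ _ i hi]) ih i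
      rw [hzs l] at h1
      exact h1
  have hdif : ∀ l t i, π ^ (q + l) ∣ zz (l + t) i - zz l i := by
    intro l t
    induction t with
    | zero => intro i; simp
    | succ t ih =>
      intro i
      have h1 : π ^ (q + l) ∣ zz (l + t + 1) i - zz (l + t) i :=
        (pow_dvd_pow π (by omega)).trans (hstep (l + t) i)
      have h2 := dvd_add h1 (ih i)
      rw [sub_add_sub_cancel] at h2
      exact h2
  have hcau : ∀ i, ∃ L : O, ∀ n, π ^ n ∣ zz n i - L := by
    intro i
    obtain ⟨L, hL⟩ := IsPrecomplete.prec (I := maximalIdeal O) (M := O) inferInstance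
      (f := fun n => zz n i) (by
        intro a b hab
        rw [smod hI]
        obtain ⟨t, rfl⟩ := Nat.exists_eq_add_of_le hab
        have h1 := hdif a t i
        rw [← dvd_neg, neg_sub]
        exact (pow_dvd_pow π (by omega)).trans h1)
    exact ⟨L, fun n => (smod hI n _ _).1 (hL n)⟩
  choose z hz using hcau
  have hzJ' : ∀ i ∈ J, z i = z0 i := by
    intro i hi
    have h1 : ∀ n, π ^ n ∣ z0 i - z i := by
      intro n
      have h2 := hz i n
      rw [hzJ n i hi] at h2
      exact h2
    have h2 := haus hI _ h1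
    exact (sub_eq_zero.1 h2).symm
  refine ⟨z, ?_, fun i => ?_⟩
  · funext i
    have h1 : ∀ n, π ^ n ∣ G z i - z i := by
      intro n
      have h2 : π ^ (n + 1) ∣ G z i - G (zz n) i := by
        refine hG n z (zz n) (fun i hi => by rw [hzJ' i hi, hzJ n i hi]) (fun i => ?_) i
        rw [← dvd_neg, neg_sub]
        exact hz i n
      have h3 := hz i (n + 1)
      rw [hzs] at h3
      have h4 := dvd_add h2 h3
      rw [sub_add_sub_cancel] at h4
      exact (pow_dvd_pow π (Nat.le_succ n)).trans h4
    exact sub_eq_zero.1 (haus hI _ h1)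
  · have h1 := hz i q
    have h2 := hdif 0 q i
    rw [zero_add, add_zero, hz0] at h2
    have h3 := dvd_sub h2 h1
    have e : zz q i - z0 i - (zz q i - z i) = z i - z0 i := by ring
    rw [e] at h3
    exact h3

end fix

theorem int2 {O : Type*} [CommRing O] [IsDomain O] [IsLocalRing O]
    [IsAdicComplete (maximalIdeal O) O] {m : ℕ} {π : O}
    (hI : maximalIdeal O = Ideal.span {π}) (hπ : π ≠ 0) (J : Finset (Fin m))
    (L P : Fin m → MvPolynomial (Fin m) O)
    (hL : ∀ i ∉ J, ∀ z z' : Fin m → O, (∀ j ∈ J, z j = z' j) → aeval z (L i) = aeval z' (L i))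
    (A : Fin m → Polynomial O) (D : MvPolynomial (Fin m) O) (e : ℕ) (D1 : Polynomial O)
    (hD : aeval A D = Polynomial.X ^ e * D1) (hD1 : D1.coeff 0 ≠ 0)
    (hf : ∀ i ∉ J, Polynomial.X ^ (e + 1) ∣ aeval A (X i - L i - C π * P i)) :
    ∃ z : Fin m → O, (∀ i ∉ J, aeval z (X i - L i - C π * P i) = 0) ∧ aeval z D ≠ 0 := by
  classical
  obtain ⟨N, hN⟩ : ∃ N, ¬ π ^ N ∣ D1.coeff 0 := by
    by_contra hcon
    push Not at hcon
    exact hD1 (haus hI _ hcon)
  set ev : Polynomial O →ₐ[O] O := Polynomial.aeval (π ^ N) with hev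
  have hevX : ev Polynomial.X = π ^ N := Polynomial.aeval_X _
  set z0 : Fin m → O := fun i => ev (A i) with hz0
  have hev2 : ∀ F : MvPolynomial (Fin m) O, aeval z0 F = ev (aeval A F) := fun F =>
    aevalHom ev A F
  set G : (Fin m → O) → (Fin m → O) := fun z i =>
    if i ∈ J then z0 i else aeval z (L i) + π * aeval z (P i) with hG
  obtain ⟨z, hz1, hz2⟩ := fixpt hI G J z0 (fun z i hi => by simp only [hG, if_pos hi])
    (fun s z z' h1 h2 i => by
      by_cases hi : i ∈ J
      · simp only [hG, if_pos hi, sub_self, dvd_zero]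
      · simp only [hG, if_neg hi]
        rw [hL i hi z z' h1, add_sub_add_left_eq_sub, ← mul_sub, pow_succ']
        refine mul_dvd_mul_left π ?_
        rw [← Ideal.mem_span_singleton]
        exact cong _ z z' (fun i => Ideal.mem_span_singleton.2 (h2 i)) (P i))
    (N * (e + 1)) (fun i => by
      by_cases hi : i ∈ J
      · simp only [hG, if_pos hi, sub_self, dvd_zero]
      · simp only [hG, if_neg hi]
        obtain ⟨R, hR⟩ := hf i hi
        have h1 := hev2 (X i - L i - C π * P i)
        rw [hR, map_mul, map_pow, hevX, ← pow_mul] at h1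
        simp only [map_sub, map_mul, aeval_X, algHom_C, Algebra.algebraMap_self,
          RingHom.id_apply] at h1
        refine ⟨-(ev R), ?_⟩
        linear_combination -h1)
  have hzi : ∀ i ∉ J, z i = aeval z (L i) + π * aeval z (P i) := by
    intro i hi
    have h1 := congrFun hz1 i
    simp only [hG, if_neg hi] at h1
    exact h1.symm
  refine ⟨z, fun i hi => ?_, fun hz => ?_⟩
  · simp only [map_sub, map_mul, aeval_X, algHom_C, Algebra.algebraMap_self, RingHom.id_apply]
    linear_combination hzi i hi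
  · have h1 : π ^ (N * (e + 1)) ∣ aeval z D - aeval z0 D := by
      rw [← Ideal.mem_span_singleton]
      exact cong _ z z0 (fun i => Ideal.mem_span_singleton.2 (hz2 i)) D
    rw [hz, hev2, hD, map_mul, map_pow, hevX, zero_sub, dvd_neg, mul_add, mul_one, pow_add,
      ← pow_mul] at h1
    have h2 : π ^ N ∣ ev D1 := (mul_dvd_mul_iff_left (pow_ne_zero _ hπ)).1 h1
    have h3 : π ^ N ∣ ev D1 - D1.coeff 0 := by
      have h4 := Polynomial.sub_dvd_eval_sub (π ^ N) 0 D1
      rw [sub_zero, ← Polynomial.coeff_zero_eq_eval_zero] at h4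
      rw [hev, Polynomial.coe_aeval_eq_eval]
      exact h4
    have h5 := dvd_sub h2 h3
    rw [sub_sub_cancel] at h5
    exact hN h5

section red

variable {O K : Type u} [CommRing O] [IsDomain O] [IsDiscreteValuationRing O] [Field K]
  [Algebra O K] [IsFractionRing O K]

theorem clr {π : O} (hπ : Irreducible π) (x : K) :
    ∀ᶠ d in atTop, ∃ o : O, (algebraMap O K π) ^ d * x = algebraMap O K o := by
  obtain ⟨a, b, hb, rfl⟩ := IsFractionRing.div_surjective (A := O) x
  have hb0 : b ≠ 0 := nonZeroDivisors.ne_zero hb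
  obtain ⟨n, u, hu⟩ := IsDiscreteValuationRing.eq_unit_mul_pow_irreducible hb0 hπ
  have hbK : algebraMap O K b ≠ 0 := by
    rw [Ne, IsFractionRing.to_map_eq_zero_iff]
    exact hb0
  refine eventually_atTop.2 ⟨n, fun d hd => ⟨π ^ (d - n) * ((↑u⁻¹ : O) * a), ?_⟩⟩
  have h1 : π ^ d * a = π ^ (d - n) * ((↑u⁻¹ : O) * a) * b := by
    have h2 : π ^ d = π ^ (d - n) * π ^ n := by
      rw [← pow_add, Nat.sub_add_cancel hd]
    have h3 : (↑u⁻¹ : O) * (u : O) = 1 := Units.inv_mul u
    rw [hu, h2]
    linear_combination (-(π ^ (d - n) * π ^ n * a)) * h3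
  rw [mul_div_assoc', div_eq_iff hbK, ← map_pow, ← map_mul, h1, map_mul]

/-- the scaling of the variables -/
noncomputable def sc (π : O) {m : ℕ} (κ : Fin m → ℕ) (i : Fin m) : MvPolynomial (Fin m) K :=
  C ((algebraMap O K π) ^ κ i) * X i

theorem subst {π : O} (hπ : Irreducible π) {m : ℕ} (F : MvPolynomial (Fin m) K) :
    ∀ᶠ k0 in atTop, ∀ κ : Fin m → ℕ, (∀ i, k0 ≤ κ i) → ∃ P : MvPolynomial (Fin m) O,
      aeval (sc (K := K) π κ) F = C (constantCoeff F) +
        C (algebraMap O K π) * MvPolynomial.map (algebraMap O K) P := by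
  induction F using MvPolynomial.induction_on with
  | C a => exact Eventually.of_forall fun k0 κ _ => ⟨0, by simp⟩
  | add p q hp hq =>
    filter_upwards [hp, hq] with k0 h1 h2 κ hκ
    obtain ⟨P, hP⟩ := h1 κ hκ
    obtain ⟨Q, hQ⟩ := h2 κ hκ
    refine ⟨P + Q, ?_⟩
    rw [map_add, hP, hQ, map_add, map_add, map_add]
    ring
  | mul_X p i hp =>
    obtain ⟨d0, hd0⟩ := eventually_atTop.1 (clr hπ (constantCoeff p))
    filter_upwards [hp, eventually_ge_atTop (d0 + 1)] with k0 h1 hk κ hκ
    obtain ⟨P, hP⟩ := h1 κ hκ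
    have hki := hκ i
    obtain ⟨o, ho⟩ := hd0 (κ i - 1) (by omega)
    refine ⟨C o * X i + P * (C (π ^ κ i) * X i), ?_⟩
    have e : (algebraMap O K π) ^ κ i * constantCoeff p = algebraMap O K π * algebraMap O K o := by
      rw [← ho, ← mul_assoc, ← pow_succ']
      congr 2
      omega
    have e' : (C ((algebraMap O K π) ^ κ i) : MvPolynomial (Fin m) K) * C (constantCoeff p) =
        C (algebraMap O K π) * C (algebraMap O K o) := by
      rw [← C_mul, e, C_mul]
    have e2 : constantCoeff (p * X i) = 0 := by simp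
    rw [e2, C_0, zero_add, map_mul, hP, aeval_X]
    simp only [map_add, map_mul, map_C, map_X]
    unfold sc
    rw [map_pow (algebraMap O K)]
    linear_combination X i * e'

/-- the linear part of the equations -/
noncomputable def LL {m : ℕ} (J : Finset (Fin m)) (o : Fin m → O) : MvPolynomial (Fin m) O :=
  ∑ j ∈ J, C (o j) * X j

/-- the other part -/
noncomputable def PP (π : O) {m : ℕ} (J : Finset (Fin m)) (c : ℕ) (i : Fin m)
    (PV : MvPolynomial (Fin m) O) (PU : Fin m → MvPolynomial (Fin m) O) :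
    MvPolynomial (Fin m) O :=
  (∑ j ∈ J, C (π ^ c) * PU j * X j) - PV * X i

theorem aeval_sc {S : Type*} [CommRing S] [Algebra K S] (π : O) {m : ℕ} (κ : Fin m → ℕ)
    (β : Fin m → S) (W : MvPolynomial (Fin m) K) :
    aeval (fun i => algebraMap K S ((algebraMap O K π) ^ κ i) * β i) W =
      aeval β (aeval (sc (K := K) π κ) W) := by
  rw [← aevalHom (aeval β) (sc (K := K) π κ) W]
  congr 2
  funext i
  unfold sc
  rw [map_mul, aeval_X, aeval_C]

theorem key {S : Type*} [CommRing S] [Algebra K S] {π : O} {m : ℕ} (J : Finset (Fin m))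
    (κ : Fin m → ℕ) (k0 c : ℕ) (i : Fin m) (hκi : κ i = k0) (hκJ : ∀ j ∈ J, κ j = k0 + c)
    (V : MvPolynomial (Fin m) K) (U : Fin m → MvPolynomial (Fin m) K) (v : K)
    (PV : MvPolynomial (Fin m) O) (PU : Fin m → MvPolynomial (Fin m) O) (u : Fin m → K)
    (o : Fin m → O)
    (hPV : aeval (sc (K := K) π κ) (C v * V) =
      C 1 + C (algebraMap O K π) * MvPolynomial.map (algebraMap O K) PV)
    (hPU : ∀ j, aeval (sc (K := K) π κ) (C v * U j) =
      C (u j) + C (algebraMap O K π) * MvPolynomial.map (algebraMap O K) (PU j))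
    (ho : ∀ j, (algebraMap O K π) ^ c * u j = algebraMap O K (o j))
    (β b : Fin m → S) (hb : b = fun i => algebraMap K S ((algebraMap O K π) ^ κ i) * β i) :
    algebraMap K S ((algebraMap O K π) ^ k0) * aeval β (MvPolynomial.map (algebraMap O K)
      (X i - LL J o - C π * PP π J c i PV PU)) =
      algebraMap K S v * (aeval b V * b i - ∑ j ∈ J, aeval b (U j) * b j) := by
  have hW : ∀ W : MvPolynomial (Fin m) K, aeval b W = aeval β (aeval (sc (K := K) π κ) W) := by
    intro W
    rw [hb]
    exact aeval_sc π κ β W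
  set w : S := algebraMap K S (algebraMap O K π) with hw
  set pV : S := aeval β (MvPolynomial.map (algebraMap O K) PV) with hpV
  set pU : Fin m → S := fun j => aeval β (MvPolynomial.map (algebraMap O K) (PU j)) with hpU
  have h1 : algebraMap K S v * aeval b V = 1 + w * pV := by
    have := congrArg (aeval β) hPV
    rw [← hW] at this
    simpa only [map_mul, map_add, aeval_C, map_one] using this
  have h2 : ∀ j, algebraMap K S v * aeval b (U j) = algebraMap K S (u j) + w * pU j := by
    intro j
    have := congrArg (aeval β) (hPU j)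
    rw [← hW] at this
    simpa only [map_mul, map_add, aeval_C] using this
  have h3 : aeval β (MvPolynomial.map (algebraMap O K)
      (X i - LL J o - C π * PP π J c i PV PU)) =
      β i - (∑ j ∈ J, algebraMap K S (algebraMap O K (o j)) * β j) -
        w * ((∑ j ∈ J, w ^ c * pU j * β j) - pV * β i) := by
    unfold LL PP
    simp only [map_sub, map_mul, map_sum, map_X, map_C, aeval_X, aeval_C, map_pow]
    rfl
  have h4 : algebraMap K S v * ∑ j ∈ J, aeval b (U j) * b j =
      w ^ k0 * (∑ j ∈ J, algebraMap K S (algebraMap O K (o j)) * β j) +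
        w ^ k0 * w * (∑ j ∈ J, w ^ c * pU j * β j) := by
    rw [Finset.mul_sum, Finset.mul_sum, Finset.mul_sum, ← Finset.sum_add_distrib]
    refine Finset.sum_congr rfl fun j hj => ?_
    have e1 : algebraMap K S (algebraMap O K (o j)) = w ^ c * algebraMap K S (u j) := by
      rw [← ho j, map_mul, map_pow]
    have e2 : b j = w ^ k0 * w ^ c * β j := by
      rw [hb]
      simp only
      rw [hκJ j hj, map_pow, pow_add]
    rw [e1, e2]
    linear_combination (w ^ k0 * w ^ c * β j) * h2 j
  have h5 : b i = w ^ k0 * β i := by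
    rw [hb]
    simp only
    rw [hκi, map_pow]
  rw [h3, h5, map_pow, ← hw]
  linear_combination (-(w ^ k0 * β i)) * h1 + h4

end red

section fin

variable {O K : Type u} [CommRing O] [Field K] [Algebra O K]

/-- the coefficients of power series, for integral polynomials -/
noncomputable def psi : Polynomial O →+* PowerSeries K :=
  (Polynomial.coeToPowerSeries.ringHom).comp (Polynomial.mapRingHom (algebraMap O K))

theorem coeff_psi (p : Polynomial O) (n : ℕ) :
    PowerSeries.coeff n (psi (K := K) p) = algebraMap O K (p.coeff n) := by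
  unfold psi
  simp

theorem psi_aeval {m : ℕ} (A : Fin m → Polynomial O) (F : MvPolynomial (Fin m) O) :
    psi (K := K) (aeval A F) =
      aeval (fun i => psi (K := K) (A i)) (MvPolynomial.map (algebraMap O K) F) := by
  rw [MvPolynomial.aeval_def, MvPolynomial.aeval_def, MvPolynomial.eval₂_map,
    MvPolynomial.hom_eval₂]
  congr 1
  ext a : 1
  simp only [RingHom.comp_apply]
  ext n
  rw [coeff_psi]
  have e1 : (algebraMap O (Polynomial O)) a = Polynomial.C a := rfl
  have e2 : (algebraMap K (PowerSeries K)) (algebraMap O K a) =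
    PowerSeries.C (algebraMap O K a) := rfl
  rw [e1, e2, Polynomial.coeff_C, PowerSeries.coeff_C]
  split_ifs
  · rfl
  · exact map_zero _

theorem map_aeval_z {m : ℕ} (z : Fin m → O) (F : MvPolynomial (Fin m) O) :
    aeval (fun i => algebraMap O K (z i)) (MvPolynomial.map (algebraMap O K) F) =
      algebraMap O K (aeval z F) := by
  rw [MvPolynomial.aeval_def, MvPolynomial.aeval_def, MvPolynomial.eval₂_map,
    MvPolynomial.hom_eval₂]
  rfl

/-- the rescaling -/
noncomputable def rh (x : K) : PowerSeries K →ₐ[K] PowerSeries K :=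
  { PowerSeries.rescale x with
    commutes' := fun a => by
      ext n
      simp [PowerSeries.coeff_rescale, PowerSeries.coeff_C]
      split_ifs with h
      · rw [h, pow_zero, one_mul]
      · rfl }

theorem coeff_rh (x : K) (f : PowerSeries K) (n : ℕ) :
    PowerSeries.coeff n (rh x f) = x ^ n * PowerSeries.coeff n f :=
  PowerSeries.coeff_rescale f x n

theorem coef {m : ℕ} (x : K) (β : Fin m → PowerSeries K) (M : ℕ) (a : Fin m → ℕ → O)
    (ha : ∀ i, ∀ n < M, x ^ n * PowerSeries.coeff n (β i) = algebraMap O K (a i n))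
    (F : MvPolynomial (Fin m) O) (n : ℕ) (hn : n < M) :
    algebraMap O K ((aeval (fun i => ∑ n ∈ Finset.range M, Polynomial.C (a i n) *
      Polynomial.X ^ n) F).coeff n) =
      x ^ n * PowerSeries.coeff n (aeval β (MvPolynomial.map (algebraMap O K) F)) := by
  set A : Fin m → Polynomial O := fun i => ∑ n ∈ Finset.range M, Polynomial.C (a i n) *
      Polynomial.X ^ n with hA
  have hAc : ∀ i, ∀ k < M, (A i).coeff k = a i k := by
    intro i k hk
    rw [hA]
    simp only [Polynomial.finsetSum_coeff, Polynomial.coeff_C_mul_X_pow]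
    rw [Finset.sum_ite_eq, if_pos (Finset.mem_range.2 hk)]
  rw [← coeff_psi (K := K), psi_aeval, ← coeff_rh, ← aevalHom (rh x) β]
  have h1 := cong (Ideal.span {(PowerSeries.X : PowerSeries K) ^ M})
    (fun i => psi (K := K) (A i)) (fun i => rh x (β i)) (fun i => by
      rw [Ideal.mem_span_singleton, PowerSeries.X_pow_dvd_iff]
      intro k hk
      rw [map_sub, coeff_psi, coeff_rh, hAc i k hk, ha i k hk, sub_self])
    (MvPolynomial.map (algebraMap O K) F)
  rw [Ideal.mem_span_singleton, PowerSeries.X_pow_dvd_iff] at h1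
  have h2 := h1 n hn
  rw [map_sub, sub_eq_zero] at h2
  exact h2

end fin

/-- FIX -/
theorem t_fix : Pool.Agent.N102.CP.S_FIX.{u} := by
  intro O K _ _ _ _ _ _ _ m J V U D α hα hV hUV hD
  classical
  obtain ⟨π, hπ⟩ := IsDiscreteValuationRing.exists_irreducible O
  have hI : maximalIdeal O = Ideal.span {π} := hπ.maximalIdeal_eq
  have hϖ : algebraMap O K π ≠ 0 := by
    rw [Ne, IsFractionRing.to_map_eq_zero_iff]
    exact hπ.ne_zero
  have hinj : Function.Injective (algebraMap O K) := IsFractionRing.injective O K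
  -- the constants
  obtain ⟨c, hc⟩ : ∃ c, ∀ i j, ∃ o : O, (algebraMap O K π) ^ c *
      ((constantCoeff (V i))⁻¹ * constantCoeff (U i j)) = algebraMap O K o := by
    have : ∀ᶠ c in atTop, ∀ i j, ∃ o : O, (algebraMap O K π) ^ c *
        ((constantCoeff (V i))⁻¹ * constantCoeff (U i j)) = algebraMap O K o := by
      rw [eventually_all]
      intro i
      rw [eventually_all]
      intro j
      exact clr hπ _
    exact this.exists
  choose o ho using hc
  obtain ⟨d, oD, hoD⟩ := (clr hπ (constantCoeff D)).exists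
  obtain ⟨k0, hk1, hk2, hk3⟩ : ∃ k0,
      (∀ i, ∀ κ : Fin m → ℕ, (∀ i, k0 ≤ κ i) → ∃ P : MvPolynomial (Fin m) O,
        aeval (sc (K := K) π κ) (C (constantCoeff (V i))⁻¹ * V i) =
          C (constantCoeff (C (constantCoeff (V i))⁻¹ * V i)) +
          C (algebraMap O K π) * MvPolynomial.map (algebraMap O K) P) ∧
      (∀ i j, ∀ κ : Fin m → ℕ, (∀ i, k0 ≤ κ i) → ∃ P : MvPolynomial (Fin m) O,
        aeval (sc (K := K) π κ) (C (constantCoeff (V i))⁻¹ * U i j) =
          C (constantCoeff (C (constantCoeff (V i))⁻¹ * U i j)) +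
          C (algebraMap O K π) * MvPolynomial.map (algebraMap O K) P) ∧
      (∀ κ : Fin m → ℕ, (∀ i, k0 ≤ κ i) → ∃ P : MvPolynomial (Fin m) O,
        aeval (sc (K := K) π κ) D = C (constantCoeff D) +
          C (algebraMap O K π) * MvPolynomial.map (algebraMap O K) P) := by
    refine ((eventually_all.2 fun i => subst hπ _).and
      ((eventually_all.2 fun i => eventually_all.2 fun j => subst hπ _).and
        (subst hπ D))).exists
  set κ : Fin m → ℕ := fun i => if i ∈ J then k0 + c else k0 with hκ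
  have hκ0 : ∀ i, k0 ≤ κ i := by
    intro i
    simp only [hκ]
    split_ifs <;> omega
  have hκJ : ∀ j ∈ J, κ j = k0 + c := fun j hj => by simp only [hκ, if_pos hj]
  have hκi : ∀ i ∉ J, κ i = k0 := fun i hi => by simp only [hκ, if_neg hi]
  choose PV hPV using fun i => hk1 i κ hκ0
  choose PU hPU using fun i j => hk2 i j κ hκ0
  obtain ⟨PD, hPD⟩ := hk3 κ hκ0
  set Dint : MvPolynomial (Fin m) O := C oD + C (π ^ d) * (C π * PD) with hDint
  have hDi : MvPolynomial.map (algebraMap O K) Dint =
      C ((algebraMap O K π) ^ d) * aeval (sc (K := K) π κ) D := by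
    rw [hPD, hDint]
    simp only [map_add, map_mul, map_C, ← hoD, map_pow]
    ring
  set F : Fin m → MvPolynomial (Fin m) O := fun i =>
    X i - LL J (o i) - C π * PP π J c i (PV i) (PU i) with hF
  have hkey : ∀ (S : Type u) [CommRing S] [Algebra K S] (β b : Fin m → S),
      (b = fun i => algebraMap K S ((algebraMap O K π) ^ κ i) * β i) → ∀ i ∉ J,
      algebraMap K S ((algebraMap O K π) ^ k0) * aeval β (MvPolynomial.map (algebraMap O K)
        (F i)) = algebraMap K S (constantCoeff (V i))⁻¹ *
          (aeval b (V i) * b i - ∑ j ∈ J, aeval b (U i j) * b j) := by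
    intro S _ _ β b hb i hi
    refine key J κ k0 c i (hκi i hi) hκJ (V i) (U i) _ (PV i) (PU i)
      (fun j => (constantCoeff (V i))⁻¹ * constantCoeff (U i j)) (o i) ?_ ?_ (ho i) β b hb
    · rw [hPV i, map_mul, constantCoeff_C, inv_mul_cancel₀ (hV i hi)]
    · intro j
      rw [hPU i j, map_mul, constantCoeff_C]
  -- the arc
  set β : Fin m → PowerSeries K := fun i =>
    algebraMap K (PowerSeries K) ((algebraMap O K π) ^ κ i)⁻¹ * α i with hβ
  have hβα : α = fun i => algebraMap K (PowerSeries K) ((algebraMap O K π) ^ κ i) * β i := by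
    funext i
    simp only [hβ]
    rw [← mul_assoc, ← map_mul, mul_inv_cancel₀ (pow_ne_zero _ hϖ), map_one, one_mul]
  have hunit : ∀ x : K, x ≠ 0 → ∀ y : PowerSeries K, algebraMap K (PowerSeries K) x * y = 0 →
      y = 0 := by
    intro x hx y hy
    have h1 : algebraMap K (PowerSeries K) x⁻¹ * (algebraMap K (PowerSeries K) x * y) = y := by
      rw [← mul_assoc, ← map_mul, inv_mul_cancel₀ hx, map_one, one_mul]
    rw [← h1, hy, mul_zero]
  have hFβ : ∀ i ∉ J, aeval β (MvPolynomial.map (algebraMap O K) (F i)) = 0 := by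
    intro i hi
    refine hunit _ (pow_ne_zero k0 hϖ) _ ?_
    rw [hkey (PowerSeries K) β α hβα i hi, hUV i hi, sub_self, mul_zero]
  have hDβ : aeval β (MvPolynomial.map (algebraMap O K) Dint) ≠ 0 := by
    intro h0
    rw [hDi, map_mul, aeval_C, ← aeval_sc, ← hβα] at h0
    exact hD (hunit _ (pow_ne_zero d hϖ) _ h0)
  have hβ0 : ∀ i, PowerSeries.coeff 0 (β i) = 0 := by
    intro i
    simp only [hβ]
    rw [PowerSeries.coeff_zero_eq_constantCoeff_apply, map_mul, hα, mul_zero]
  have hex : ∃ e, PowerSeries.coeff e (aeval β (MvPolynomial.map (algebraMap O K) Dint)) ≠ 0 := by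
    by_contra hcon
    push Not at hcon
    exact hDβ (PowerSeries.ext fun n => by rw [hcon n, map_zero])
  set e := Nat.find hex with he
  have he1 : PowerSeries.coeff e (aeval β (MvPolynomial.map (algebraMap O K) Dint)) ≠ 0 :=
    Nat.find_spec hex
  have he2 : ∀ n < e, PowerSeries.coeff n (aeval β (MvPolynomial.map (algebraMap O K) Dint)) = 0 :=
    fun n hn => not_not.1 (Nat.find_min hex hn)
  obtain ⟨N0, hN0⟩ : ∃ N0, ∀ i, ∀ n ∈ Finset.range (e + 1), ∃ a : O,
      ((algebraMap O K π) ^ N0) ^ n * PowerSeries.coeff n (β i) = algebraMap O K a := by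
    have : ∀ᶠ N0 in atTop, ∀ i, ∀ n ∈ Finset.range (e + 1), ∃ a : O,
        ((algebraMap O K π) ^ N0) ^ n * PowerSeries.coeff n (β i) = algebraMap O K a := by
      rw [eventually_all]
      intro i
      rw [Filter.eventually_all_finset]
      intro n _
      rcases Nat.eq_zero_or_pos n with rfl | hn
      · refine Eventually.of_forall fun N0 => ⟨0, ?_⟩
        rw [hβ0, mul_zero, map_zero]
      · obtain ⟨d0, hd0⟩ := eventually_atTop.1 (clr hπ (PowerSeries.coeff n (β i)))
        refine eventually_atTop.2 ⟨d0, fun N0 hN => ?_⟩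
        rw [← pow_mul]
        exact hd0 _ (hN.trans (Nat.le_mul_of_pos_right N0 hn))
    exact this.exists
  choose! a ha using hN0
  have hcoef := coef ((algebraMap O K π) ^ N0) β (e + 1) a
    (fun i n hn => ha i n (Finset.mem_range.2 hn))
  set A : Fin m → Polynomial O := fun i => ∑ n ∈ Finset.range (e + 1), Polynomial.C (a i n) *
      Polynomial.X ^ n with hA
  have hDA : Polynomial.X ^ e ∣ aeval A Dint := by
    rw [Polynomial.X_pow_dvd_iff]
    intro n hn
    have h1 := hcoef Dint n (by omega)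
    rw [he2 n hn, mul_zero] at h1
    exact hinj (by rw [h1, map_zero])
  obtain ⟨D1, hD1⟩ := hDA
  have hD10 : D1.coeff 0 ≠ 0 := by
    intro h0
    have h1 := hcoef Dint e (by omega)
    have h2 : (aeval A Dint).coeff e = D1.coeff 0 := by
      rw [hD1]
      have := Polynomial.coeff_X_pow_mul D1 e 0
      rw [zero_add] at this
      exact this
    rw [h2, h0, map_zero] at h1
    exact (mul_ne_zero (pow_ne_zero _ (pow_ne_zero _ hϖ)) he1) h1.symm
  have hFA : ∀ i ∉ J, Polynomial.X ^ (e + 1) ∣ aeval A (F i) := by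
    intro i hi
    rw [Polynomial.X_pow_dvd_iff]
    intro n hn
    have h1 := hcoef (F i) n hn
    rw [hFβ i hi, map_zero, mul_zero] at h1
    exact hinj (by rw [h1, map_zero])
  obtain ⟨z, hz1, hz2⟩ := int2 hI hπ.ne_zero J (fun i => LL J (o i))
    (fun i => PP π J c i (PV i) (PU i)) (fun i _ z z' h => by
      unfold LL
      simp only [map_sum, map_mul, aeval_X, algHom_C]
      exact Finset.sum_congr rfl fun j hj => by rw [h j hj])
    A Dint e D1 hD1 hD10 hFA
  refine ⟨fun i => algebraMap K K ((algebraMap O K π) ^ κ i) * algebraMap O K (z i),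
    fun i hi => ?_, fun h0 => ?_⟩
  · have h1 := hkey K (fun i => algebraMap O K (z i)) _ rfl i hi
    rw [map_aeval_z] at h1
    have h2 : aeval z (F i) = 0 := hz1 i hi
    rw [h2, map_zero, mul_zero] at h1
    have h3 : algebraMap K K (constantCoeff (V i))⁻¹ ≠ 0 := inv_ne_zero (hV i hi)
    exact sub_eq_zero.1 ((mul_eq_zero.1 h1.symm).resolve_left h3)
  · rw [aeval_sc] at h0
    apply hz2
    apply hinj
    rw [← map_aeval_z (K := K), hDi, map_mul, h0, mul_zero, map_zero]

end Pool.Agent.N286.CP
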